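import Pool.Agent.Work.MP_8d2cba_co_h18.Basic
import Pool.Agent.Work.MP_8d2cba_co_helper76.CLOSE2
import Pool.Agent.Work.MP_8d2cba_co_helper76.R

/-! MP_8d2cba_co, block PX: exchange of `{a, b}` and `{a', b'}` when `a b = a' b'`. -/

set_option autoImplicit false

namespace Pool.OM.helper48

open Finset Pool.OM

namespace PXW

/-- variables: `x y s1 s2 s3` free, parameters `u u' v` -/
def X (n : ℕ) : Wd := [(n + 1, true)]
def v' : Wd := Wd.inv (X 6) ++ X 5 ++ X 7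
def y' : Wd := Wd.inv (X 1) ++ X 7 ++ X 0
def y'' : Wd := Wd.inv (X 6) ++ X 5 ++ X 1
def k0 : Wd := X 2 ++ X 7 ++ X 0
def k1 : Wd := X 3 ++ X 5 ++ X 1
def k2 : Wd := X 4 ++ v' ++ X 0
def vw : List Wd := [X 2 ++ X 7, X 2 ++ X 1, X 3 ++ X 5, X 3 ++ X 6, X 4 ++ y'', X 4 ++ v',
  k0, k1, k2, X 2, X 3, X 4]
def cw : List Wd := [X 0, X 1, y', y'', Wd.inv k0 ++ X 2, Wd.inv k1 ++ X 3, Wd.inv k2 ++ X 4]
def ds : List Wd := Sys.diffs vw ++ (Sys.diffs cw ++ cw)

def obs : List Ob := [Ob.ne [(8, true)],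
 Ob.ne [(6, true), (7, false)],
 Ob.ne [(6, true)],
 Ob.ne [(7, true)],
 Ob.ne [(7, false), (6, true), (8, true)],
 Ob.rt [(8, true)],
 Ob.rt [(7, false), (6, true), (8, true)],
 Ob.ne [(6, false), (7, true)],
 Ob.rt [(6, true)],
 Ob.rt [(7, true)],
 Ob.ne [(7, false), (6, true)]]

lemma lobls_ds : Sys.lobls 5 ds = some obs := by decide +kernel

lemma lin_vw : ∀ w ∈ vw, Wd.lin 5 (Wd.red w) = true := by decide +kernel

lemma lin_cw : ∀ w ∈ cw, Wd.lin 5 (Wd.red w) = true := by decide +kernel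

lemma len_ds : ds.length = 94 := by decide +kernel

end PXW

open PXW

lemma fin3_map {G : Type} (f : Fin 3 → G) :
    (univ : Finset (Fin 3)).val.map f = {f 0, f 1, f 2} := by
  rw [Fin.univ_val_map]
  simp [List.ofFn_succ]
  rfl

lemma evX {G : Type} [Group G] (ρ : ℕ → G) (j : ℕ) : ev 1 ρ (X j) = ρ j := by
  simp [X, ev, evL]

/-- choice of the core -/
lemma px_core {G : Type} [Group G] [Fintype G] [DecidableEq G] (FV FC : Finset G) (K : ℕ)
    (hK : 188 ≤ K) (hKn : K ≤ Fintype.card G) (hF : 24 * (FV.card + FC.card + 1) ≤ Fintype.card G)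
    (u v u' v' : G) (huv : u * v = u' * v') (hne : u ≠ u') (hu : u ≠ 1) (hv : v ≠ 1)
    (hu' : u' ≠ 1) (hv' : v' ≠ 1) (ru : K * rt u ≤ Fintype.card G) (rv : K * rt v ≤ Fintype.card G)
    (ru' : K * rt u' ≤ Fintype.card G) (rv' : K * rt v' ≤ Fintype.card G) :
    ∃ x y s1 s2 s3 y' y'' : G, y' = y⁻¹ * v * x ∧ y'' = u'⁻¹ * u * y ∧
      (([s1 * v, s1 * y, s2 * u, s2 * u', s3 * y'', s3 * v', s1 * v * x, s2 * u * y,
        s3 * v' * x, s1, s2, s3] : List G)).Nodup ∧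
      (∀ z ∈ ([s1 * v, s1 * y, s2 * u, s2 * u', s3 * y'', s3 * v', s1 * v * x, s2 * u * y,
        s3 * v' * x, s1, s2, s3] : List G), z ∉ FV) ∧
      (([x, y, y', y'', (s1 * v * x)⁻¹ * s1, (s2 * u * y)⁻¹ * s2, (s3 * v' * x)⁻¹ * s3] :
        List G)).Nodup ∧
      ∀ z ∈ ([x, y, y', y'', (s1 * v * x)⁻¹ * s1, (s2 * u * y)⁻¹ * s2,
        (s3 * v' * x)⁻¹ * s3] : List G), z ∉ FC ∧ z ≠ 1 := by
  have ev' : v' = u'⁻¹ * u * v := by rw [mul_assoc, huv]; group
  let ρ : ℕ → G := fun j => if j = 0 then u else if j = 1 then u' else v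
  obtain ⟨ω, h1, h2⟩ := Pool.OM.h76.stmt_R4 G 1 (by simp) 5 ds obs lobls_ds
    (vw.map (fun w => (w, FV)) ++ cw.map fun w => (w, FC))
    (by
      intro a ha
      rw [List.mem_append, List.mem_map, List.mem_map] at ha
      rcases ha with ⟨w, hw, rfl⟩ | ⟨w, hw, rfl⟩
      · exact lin_vw w hw
      · exact lin_cw w hw)
    K ρ hKn (by rw [len_ds]; omega)
    (by
      have e1 : v' = u'⁻¹ * (u * v) := by rw [ev', mul_assoc]
      have h7 : u'⁻¹ * (u * v) ≠ 1 := e1 ▸ hv'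
      have h8 : K * rt (u'⁻¹ * (u * v)) ≤ Fintype.card G := e1 ▸ rv'
      have h9 : u * u'⁻¹ ≠ 1 := fun h => hne (mul_inv_eq_one.mp h)
      have h10 : u⁻¹ * u' ≠ 1 := fun h => hne (inv_mul_eq_one.mp h)
      have h11 : u'⁻¹ * u ≠ 1 := fun h => hne (inv_mul_eq_one.mp h).symm
      intro o ho
      simp only [obs, List.mem_cons, List.mem_nil_iff, or_false] at ho
      rcases ho with rfl | rfl | rfl | rfl | rfl | rfl | rfl | rfl | rfl | rfl | rfl <;>
        simp [ObOK, ev, evL, join, ρ, hu, hv, hu', h7, h8, h9, h10, h11, ru, rv, ru'])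
    (by
      have e : ((vw.map (fun w => (w, FV)) ++ cw.map fun w => (w, FC)).map
          fun a : Wd × Finset G => a.2.card).sum = 12 * FV.card + 7 * FC.card := by
        simp [vw, cw]
        ring
      rw [e]
      omega)
  have j0 : join 5 ω ρ 0 = ω 0 := rfl
  have j1 : join 5 ω ρ 1 = ω 1 := rfl
  have j2 : join 5 ω ρ 2 = ω 2 := rfl
  have j3 : join 5 ω ρ 3 = ω 3 := rfl
  have j4 : join 5 ω ρ 4 = ω 4 := rfl
  have j5 : join 5 ω ρ 5 = u := rfl
  have j6 : join 5 ω ρ 6 = u' := rfl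
  have j7 : join 5 ω ρ 7 = v := rfl
  have hvals : vw.map (ev 1 (join 5 ω ρ)) = [ω 2 * v, ω 2 * ω 1, ω 3 * u, ω 3 * u',
      ω 4 * (u'⁻¹ * u * ω 1), ω 4 * v', ω 2 * v * ω 0, ω 3 * u * ω 1, ω 4 * v' * ω 0,
      ω 2, ω 3, ω 4] := by
    simp only [vw, PXW.v', PXW.y'', k0, k1, k2, List.map_cons, List.map_nil,
      Pool.OM.h76.ev_append, Pool.OM.h76.ev_inv (γ := (1 : G)) (by simp), evX, j0, j1, j2, j3, j4,
      j5, j6, j7]
    rw [ev']
  have hcols : cw.map (ev 1 (join 5 ω ρ)) = [ω 0, ω 1, (ω 1)⁻¹ * v * ω 0, u'⁻¹ * u * ω 1,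
      (ω 2 * v * ω 0)⁻¹ * ω 2, (ω 3 * u * ω 1)⁻¹ * ω 3, (ω 4 * v' * ω 0)⁻¹ * ω 4] := by
    simp only [cw, PXW.v', PXW.y', PXW.y'', k0, k1, k2, List.map_cons, List.map_nil,
      Pool.OM.h76.ev_append, Pool.OM.h76.ev_inv (γ := (1 : G)) (by simp), evX, j0, j1, j2, j3, j4,
      j5, j6, j7]
    rw [ev']
  have n1 := Pool.OM.h76.nodup_of_diffs (γ := (1 : G)) (by simp) (join 5 ω ρ) vw
    (fun w hw => h1 w (by simp [ds, hw]))
  have n2 := Pool.OM.h76.nodup_of_diffs (γ := (1 : G)) (by simp) (join 5 ω ρ) cw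
    (fun w hw => h1 w (by simp [ds, hw]))
  have f1 : ∀ z ∈ vw.map (ev 1 (join 5 ω ρ)), z ∉ FV := by
    intro z hz
    obtain ⟨w, hw, rfl⟩ := List.mem_map.mp hz
    exact h2 (w, FV) (List.mem_append_left _ (List.mem_map.mpr ⟨w, hw, rfl⟩))
  have f2 : ∀ z ∈ cw.map (ev 1 (join 5 ω ρ)), z ∉ FC ∧ z ≠ 1 := by
    intro z hz
    obtain ⟨w, hw, rfl⟩ := List.mem_map.mp hz
    exact ⟨h2 (w, FC) (List.mem_append_right _ (List.mem_map.mpr ⟨w, hw, rfl⟩)),
      h1 w (by simp [ds, hw])⟩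
  rw [hvals] at n1 f1
  rw [hcols] at n2 f2
  exact ⟨ω 0, ω 1, ω 2, ω 3, ω 4, _, _, rfl, rfl, n1, f1, n2, f2⟩

/-- the core gadget with its two states -/
lemma px_gad {G : Type} [Group G] [Fintype G] [DecidableEq G] (k : ℕ) (hk : 3 ≤ k)
    (hdvd : k ∣ Fintype.card G - 1) (FV FC : Finset G)
    (hF : 1000 * (FV.card + FC.card + 1) ≤ Fintype.card G)
    (u v u' v' : G) (huv : u * v = u' * v') (hne : u ≠ u') (hu : u ≠ 1) (hv : v ≠ 1)
    (hu' : u' ≠ 1) (hv' : v' ≠ 1) (ru : 188 * rt u ≤ Fintype.card G)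
    (rv : 188 * rt v ≤ Fintype.card G)
    (ru' : 188 * rt u' ≤ Fintype.card G) (rv' : 188 * rt v' ≤ Fintype.card G) :
    ∃ (D : Gad G) (V C : Multiset G) (a0 b0 a1 b1 a2 b2 : G), D.size = 19 ∧ Fresh k FV FC D ∧
      D.V = a0 ::ₘ b0 ::ₘ a1 ::ₘ b1 ::ₘ a2 ::ₘ b2 ::ₘ V ∧ D.C = C ∧
      MS D.idx (a0 ::ₘ a1 ::ₘ a2 ::ₘ V) (u ::ₘ v ::ₘ C) ∧
      MS D.idx (b0 ::ₘ b1 ::ₘ b2 ::ₘ V) (u' ::ₘ v' ::ₘ C) := by
  have ev' : v' = u'⁻¹ * u * v := by rw [mul_assoc, huv]; group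
  obtain ⟨x, y, s1, s2, s3, y', y'', hy', hy'', n1, f1, n2, f2⟩ := px_core FV FC 188 le_rfl
    (by omega) (by omega) u v u' v' huv hne hu hv hu' hv' ru rv ru' rv'
  let s : Fin 3 → G := ![s1, s2, s3]
  let yy : Fin 3 → G := ![s1 * v * x, s2 * u * y, s3 * v' * x]
  let a : Fin 3 → G := ![s1 * v, s2 * u, s3 * y'']
  let b : Fin 3 → G := ![s1 * y, s2 * u', s3 * v']
  let V : Multiset G := {s1 * v * x, s2 * u * y, s3 * v' * x}
  let BV : Multiset G := s1 * v ::ₘ s1 * y ::ₘ s2 * u ::ₘ s2 * u' ::ₘ s3 * y'' ::ₘ s3 * v' ::ₘ V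
  let BC : Multiset G := {x, y, y', y''}
  have eV : BV + (univ : Finset (Fin 3)).val.map s =
      (([s1 * v, s1 * y, s2 * u, s2 * u', s3 * y'', s3 * v', s1 * v * x, s2 * u * y,
        s3 * v' * x, s1, s2, s3] : List G) : Multiset G) := by
    rw [fin3_map]
    rfl
  have eC : BC + (univ : Finset (Fin 3)).val.map (fun i => (yy i)⁻¹ * s i) =
      (([x, y, y', y'', (s1 * v * x)⁻¹ * s1, (s2 * u * y)⁻¹ * s2, (s3 * v' * x)⁻¹ * s3] :
        List G) : Multiset G) := by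
    rw [fin3_map]
    rfl
  obtain ⟨t, τ, ht, hfr⟩ := Pool.OM.h76.fresh_close k hk hdvd FV FC s yy BV BC
    (by
      have c1 : BV.card = 9 := by rfl
      have c2 : BC.card = 4 := by rfl
      rw [c1, c2, Fintype.card_fin]
      omega)
    (by rw [eV]; exact n1)
    (by
      intro z hz
      rw [eV] at hz
      exact f1 z hz)
    (by
      have h0 : (BC + (univ : Finset (Fin 3)).val.map (fun i => (yy i)⁻¹ * s i)).Nodup := by
        rw [eC]; exact n2
      split_ifs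
      · exact h0
      · rw [add_zero]
        exact (Multiset.nodup_add.mp h0).1)
    (by
      intro c hc
      have h0 : c ∈ BC + (univ : Finset (Fin 3)).val.map (fun i => (yy i)⁻¹ * s i) := by
        split_ifs at hc
        · exact hc
        · rw [add_zero] at hc
          exact Multiset.mem_add.mpr (Or.inl hc)
      rw [eC] at h0
      exact f2 c h0)
  have hidx : (⟨(univ : Finset (Fin 3)).val.map fun i => (s i, t i, τ i), BV,
      BC + (univ : Finset (Fin 3)).val.map fun i => (yy i)⁻¹ * t i⟩ : Gad G).idx =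
      (univ : Finset (Fin 3)).val.map fun i => (s i, t i, 3) := by
    simp only [Gad.idx, Multiset.map_map, Function.comp_def, sidx]
  refine ⟨⟨(univ : Finset (Fin 3)).val.map fun i => (s i, t i, τ i), BV,
        BC + (univ : Finset (Fin 3)).val.map fun i => (yy i)⁻¹ * t i⟩, V, _,
    s1 * v, s1 * y, s2 * u, s2 * u', s3 * y'', s3 * v', ?_, hfr, rfl, rfl, ?_, ?_⟩
  · rw [fin3_map, fin3_map]
    rfl
  · rw [hidx]
    have h := Pool.OM.h76.ms_family (univ : Finset (Fin 3)).val s t a yy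
    have e1 : (univ : Finset (Fin 3)).val.map a + (univ : Finset (Fin 3)).val.map yy =
        s1 * v ::ₘ s2 * u ::ₘ s3 * y'' ::ₘ V := by
      rw [fin3_map, fin3_map]
      rfl
    have e2 : (univ : Finset (Fin 3)).val.map (fun i => (s i)⁻¹ * a i) = {v, u, y''} := by
      rw [fin3_map]
      show ({s1⁻¹ * (s1 * v), s2⁻¹ * (s2 * u), s3⁻¹ * (s3 * y'')} : Multiset G) = _
      rw [inv_mul_cancel_left, inv_mul_cancel_left, inv_mul_cancel_left]
    have e3 : (univ : Finset (Fin 3)).val.map (fun i => (a i)⁻¹ * yy i) = {x, y, y'} := by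
      rw [fin3_map]
      show ({(s1 * v)⁻¹ * (s1 * v * x), (s2 * u)⁻¹ * (s2 * u * y),
        (s3 * y'')⁻¹ * (s3 * v' * x)} : Multiset G) = _
      have : (s3 * y'')⁻¹ * (s3 * v' * x) = y' := by
        rw [hy', hy'', ev']; group
      rw [inv_mul_cancel_left, inv_mul_cancel_left, this]
    rw [e1, e2, e3] at h
    convert h using 1
    simp only [BC, Multiset.insert_eq_cons, ← Multiset.singleton_add]
    abel
  · rw [hidx]
    have h := Pool.OM.h76.ms_family (univ : Finset (Fin 3)).val s t b yy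
    have e1 : (univ : Finset (Fin 3)).val.map b + (univ : Finset (Fin 3)).val.map yy =
        s1 * y ::ₘ s2 * u' ::ₘ s3 * v' ::ₘ V := by
      rw [fin3_map, fin3_map]
      rfl
    have e2 : (univ : Finset (Fin 3)).val.map (fun i => (s i)⁻¹ * b i) = {y, u', v'} := by
      rw [fin3_map]
      show ({s1⁻¹ * (s1 * y), s2⁻¹ * (s2 * u'), s3⁻¹ * (s3 * v')} : Multiset G) = _
      rw [inv_mul_cancel_left, inv_mul_cancel_left, inv_mul_cancel_left]
    have e3 : (univ : Finset (Fin 3)).val.map (fun i => (b i)⁻¹ * yy i) = {y', y'', x} := by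
      rw [fin3_map]
      show ({(s1 * y)⁻¹ * (s1 * v * x), (s2 * u')⁻¹ * (s2 * u * y),
        (s3 * v')⁻¹ * (s3 * v' * x)} : Multiset G) = _
      have h1 : (s1 * y)⁻¹ * (s1 * v * x) = y' := by
        rw [hy']; group
      have h2 : (s2 * u')⁻¹ * (s2 * u * y) = y'' := by
        rw [hy'']; group
      rw [inv_mul_cancel_left, h1, h2]
    rw [e1, e2, e3] at h
    convert h using 1
    simp only [BC, Multiset.insert_eq_cons, ← Multiset.singleton_add]
    abel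

theorem stmt_PX (hW : Stmt_W) : Stmt_PX := by
  obtain ⟨K₀, hW⟩ := hW
  obtain ⟨K, hKdef⟩ : ∃ K : ℕ, K = 1000 * (K₀ + 1) * (K₀ + 1) := ⟨_, rfl⟩
  have hK1 : 1000 ≤ K := by rw [hKdef]; nlinarith
  have hK3 : 19 + 3 * K₀ ≤ K := by rw [hKdef]; nlinarith
  have hK4 : K₀ * (100 * (K₀ + 1)) ≤ K := by rw [hKdef]; nlinarith
  clear hKdef
  refine ⟨K, ?_⟩
  intro G _ _ _ k FV FC hk hdvd hF u v u' v' huv hne hu hv hu' hv' ru rv ru' rv'
  generalize hn : Fintype.card G = n at *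
  have hr : ∀ c : G, K * rt c ≤ n → 188 * rt c ≤ n := by
    intro c h
    exact (Nat.mul_le_mul_right _ (le_trans (by norm_num) hK1)).trans h
  have hF1 : 1000 * (FV.card + FC.card + 1) ≤ n :=
    (Nat.mul_le_mul_right _ hK1).trans hF
  obtain ⟨D, V, C, a0, b0, a1, b1, a2, b2, hsz, hfr, hDV, hDC, m1, m2⟩ := px_gad k hk
    (by rw [hn]; exact hdvd) FV FC
    (by rw [hn]; exact hF1) u v u' v' huv hne hu hv hu' hv' (by rw [hn]; exact hr _ ru)
    (by rw [hn]; exact hr _ rv) (by rw [hn]; exact hr _ ru') (by rw [hn]; exact hr _ rv')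
  -- three vertex exchanges
  have key : ∀ E : Gad G, E.size ≤ 19 + 2 * K₀ →
      K₀ * ((FV ∪ E.vf k).card + (FC ∪ E.cf k).card + 1) ≤ n := by
    intro E hE
    have h1 := card_union_le FV (E.vf k)
    have h2 := card_union_le FC (E.cf k)
    have h3 := E.card_vf_le k
    have h4 := E.card_cf_le k
    have h5 : (FV ∪ E.vf k).card + (FC ∪ E.cf k).card + 1 ≤
        100 * (K₀ + 1) * (FV.card + FC.card + 1) := by
      generalize (FV ∪ E.vf k).card = x1 at *
      generalize (FC ∪ E.cf k).card = x2 at *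
      generalize (E.vf k).card = x3 at *
      generalize (E.cf k).card = x4 at *
      generalize E.size = x5 at *
      generalize FV.card = x6 at *
      generalize FC.card = x7 at *
      nlinarith [Nat.zero_le (K₀ * x6), Nat.zero_le (K₀ * x7)]
    calc K₀ * ((FV ∪ E.vf k).card + (FC ∪ E.cf k).card + 1)
        ≤ K₀ * (100 * (K₀ + 1) * (FV.card + FC.card + 1)) := Nat.mul_le_mul_left _ h5
      _ = K₀ * (100 * (K₀ + 1)) * (FV.card + FC.card + 1) := by ring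
      _ ≤ K * (FV.card + FC.card + 1) := Nat.mul_le_mul_right _ hK4
      _ ≤ n := hF
  have hdvd' : k ∣ Fintype.card G - 1 := by rw [hn]; exact hdvd
  obtain ⟨W0, z0, g0, p0, q0⟩ := hW G k (FV ∪ D.vf k) (FC ∪ D.cf k) hk hdvd'
    (by rw [hn]; exact key D (by omega)) a0 b0
  have hfr0 := hfr.add g0
  have hsz0 : (D.add W0).size ≤ 19 + K₀ := by rw [Gad.add_size]; omega
  obtain ⟨W1, z1, g1, p1, q1⟩ := hW G k (FV ∪ (D.add W0).vf k) (FC ∪ (D.add W0).cf k) hk hdvd'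
    (by rw [hn]; exact key _ (by omega)) a1 b1
  have hfr1 := hfr0.add g1
  have hsz1 : ((D.add W0).add W1).size ≤ 19 + 2 * K₀ := by rw [Gad.add_size]; omega
  obtain ⟨W2, z2, g2, p2, q2⟩ := hW G k (FV ∪ ((D.add W0).add W1).vf k)
    (FC ∪ ((D.add W0).add W1).cf k) hk hdvd' (by rw [hn]; exact key _ hsz1) a2 b2
  have hfr2 := hfr1.add g2
  refine ⟨((D.add W0).add W1).add W2, ?_, hfr2, ?_, ?_⟩
  · rw [Gad.add_size]
    omega
  · have h := ((m1.add q0).add q1).add q2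
    simp only [Gad.add_idx, Gad.add_V, Gad.add_C]
    rw [hDV, hDC]
    convert h using 1
    · simp only [← Multiset.singleton_add]
      abel
    · simp only [← Multiset.singleton_add]
      abel
  · have h := ((m2.add p0).add p1).add p2
    simp only [Gad.add_idx, Gad.add_V, Gad.add_C]
    rw [hDV, hDC]
    convert h using 1
    · simp only [← Multiset.singleton_add]
      abel
    · simp only [← Multiset.singleton_add]
      abel

end Pool.OM.helper48
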