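import Pool.Agent.Work.MP_8d2cba_co_helper48.Place1

/-! MP_8d2cba_co, block PLACE: the case `k ≥ 6`. -/

set_option autoImplicit false

namespace Pool.OM.helper48

open Finset

variable {G : Type}

lemma bind_jl (k : ℕ) (hk : 6 ≤ k) (T : Multiset (SI G)) :
    T.bind (jl k) = T.map (fun i => i.1) + T.map (fun i => i.2.1) := by
  have : jl (G := G) k = fun i => ({i.1} + {i.2.1} : Multiset G) := by
    funext i
    have h3 : ¬ k = 3 := by omega
    have h5 : ¬ k = 5 := by omega
    simp only [jl, if_neg h3, if_neg h5]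
    rfl
  rw [this, Multiset.bind_add, Multiset.bind_singleton, Multiset.bind_singleton]

lemma bind_tidx (k : ℕ) (hk : 6 ≤ k) (T : Multiset (SI G)) : T.bind (tidx k) = 0 := by
  have : tidx (G := G) k = fun _ => 0 := by
    funext i
    have h4 : ¬ k = 4 := by omega
    have h5 : ¬ k = 5 := by omega
    simp only [tidx, if_neg h4, if_neg h5]
  rw [this]
  exact Multiset.bind_zero T

/-- lengths of the segments -/
def ln (k q' : ℕ) (i : Fin (q' + 1)) : ℕ := if i.val = q' then k - 3 * q' else 3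

lemma sum_ln (k q' : ℕ) (h : 3 * q' ≤ k) : ∑ i, ln k q' i = k := by
  rw [Fin.sum_univ_castSucc]
  have h1 : ∑ i : Fin q', ln k q' i.castSucc = ∑ i : Fin q', 3 := by
    refine sum_congr rfl fun i _ => ?_
    have : i.castSucc.val ≠ q' := by
      rw [Fin.val_castSucc]
      exact ne_of_lt i.2
    rw [ln, if_neg this]
  rw [h1, ln, if_pos (Fin.val_last q')]
  simp
  omega

lemma place2 [Group G] [Fintype G] [DecidableEq G] (E k : ℕ) (hE : 1 ≤ E) (hk : 6 ≤ k)
    (hdvd : k ∣ Fintype.card G - 1) (T : Multiset (SI G)) (hnd : (T.bind (jl k)).Nodup)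
    (hT : (100 + 8 * E) * Multiset.card T ≤ Fintype.card G)
    (hN : 100 + 20 * E * E ≤ Fintype.card G) :
  ∃ m : ℕ, Fintype.card G ≤ 6 * m ∧ 3 * m ≤ Fintype.card G ∧
    ∀ S : Finset G, S.card = m → (∀ x ∈ T.bind (jl k), x ∉ S) →
    ∃ (L : List (List (G × ℕ))) (I : Finset (Idx G)),
      (∀ c ∈ L, (c.map Prod.snd).sum = k ∧ ∀ x ∈ c, 1 ≤ x.2) ∧
      L.length * k + 1 = Fintype.card G ∧
      (L.map cidx).sum = I.val + T.map sidx + T.bind (tidx k) ∧
      (L.map fun c => ((c.map Prod.fst : List G) : Multiset G)).sum = S.val + T.bind (jl k) ∧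
      (∀ i ∈ I, i.2.2 = 3 ∨ i.2.2 = 4 ∨ i.2.2 = 5) ∧
      Set.InjOn (fun i : Idx G => i.1) (I : Set (Idx G)) ∧
      Set.InjOn (fun i : Idx G => i.2.1) (I : Set (Idx G)) ∧
      (∀ x ∈ S, ∃ i ∈ I, i.1 = x) ∧ (∀ i ∈ I, i.1 ∈ S ∨ i.1 ∈ T.bind (jl k)) ∧
      (∀ x ∈ S, ∃ i ∈ I, i.2.1 = x) ∧ (∀ i ∈ I, i.2.1 ∈ S ∨ i.2.1 ∈ T.bind (jl k)) ∧
      ((∀ i ∈ I, i.2.1 = i.1) ∨
        ∀ g : G, E * (I.filter fun i => i.1⁻¹ * i.2.1 = g).card ≤ Fintype.card G) := by
  classical
  obtain ⟨M, hM⟩ := hdvd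
  set n := Fintype.card G with hn
  obtain ⟨q', hq'⟩ : ∃ q', k / 3 = q' + 1 := ⟨k / 3 - 1, by omega⟩
  have hq1 : 1 ≤ q' := by omega
  have hkq : 3 * (q' + 1) ≤ k ∧ k ≤ 3 * (q' + 1) + 2 := by omega
  set t := Multiset.card T with ht
  have ht100 : 100 * t ≤ n := by nlinarith
  -- sizes
  have hn1 : 1 ≤ n := by omega
  have hMk : M * k + 1 = n := by rw [mul_comm]; omega
  have hMq3 : 3 * (M * (q' + 1)) ≤ n - 1 := by
    have : M * (3 * (q' + 1)) ≤ M * k := Nat.mul_le_mul_left _ hkq.1
    nlinarith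
  have hMq4 : n - 1 ≤ 4 * (M * (q' + 1)) := by
    have h1 : k ≤ 4 * (q' + 1) := by omega
    have : M * k ≤ M * (4 * (q' + 1)) := Nat.mul_le_mul_left _ h1
    nlinarith
  have htM : t ≤ M * ((q' + 1) / 2) := by
    have h1 : k ≤ 11 * ((q' + 1) / 2) := by omega
    have : M * k ≤ M * (11 * ((q' + 1) / 2)) := Nat.mul_le_mul_left _ h1
    nlinarith
  refine ⟨M * (q' + 1) - 2 * t, by omega, by omega, ?_⟩
  intro S hS hdisj
  have h2t : 2 * t ≤ M * (q' + 1) := by omega
  -- the special indices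
  let sp : Fin t → SI G := fun a => T.toList.get ⟨a, by rw [Multiset.length_toList]; exact a.2⟩
  have hsp : (univ : Finset (Fin t)).val.map sp = T := by
    rw [Fin.univ_val_map]
    conv_rhs => rw [← Multiset.coe_toList T]
    congr 1
    apply List.ext_getElem
    · rw [List.length_ofFn, Multiset.length_toList]
    · intro i h1 h2
      rw [List.getElem_ofFn]
      rfl
  rw [bind_jl k hk] at hnd hdisj
  have hTs : T.map (fun i => i.1) = (univ : Finset (Fin t)).val.map fun a => (sp a).1 := by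
    rw [← hsp, Multiset.map_map]; rfl
  have hTt : T.map (fun i => i.2.1) = (univ : Finset (Fin t)).val.map fun a => (sp a).2.1 := by
    rw [← hsp, Multiset.map_map]; rfl
  rw [hTs, hTt] at hnd hdisj
  have hnd' := Multiset.nodup_add.mp hnd
  have hsinj : Function.Injective fun a => (sp a).1 := by
    intro a b h
    exact Multiset.inj_on_of_nodup_map hnd'.1 a (mem_univ_val _) b (mem_univ_val _) h
  have htinj : Function.Injective fun a => (sp a).2.1 := by
    intro a b h
    exact Multiset.inj_on_of_nodup_map hnd'.2.1 a (mem_univ_val _) b (mem_univ_val _) h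
  have hst : ∀ a b, (sp a).1 ≠ (sp b).2.1 := by
    intro a b h
    exact Multiset.disjoint_left.mp hnd'.2.2
      (Multiset.mem_map.mpr ⟨a, mem_univ_val _, rfl⟩)
      (Multiset.mem_map.mpr ⟨b, mem_univ_val _, h.symm⟩)
  have hsS : ∀ a, (sp a).1 ∉ S := fun a => hdisj _ (Multiset.mem_add.mpr
    (Or.inl (Multiset.mem_map.mpr ⟨a, mem_univ_val _, rfl⟩)))
  have htS : ∀ a, (sp a).2.1 ∉ S := fun a => hdisj _ (Multiset.mem_add.mpr
    (Or.inr (Multiset.mem_map.mpr ⟨a, mem_univ_val _, rfl⟩)))
  -- slots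
  let Pos := Fin M × Fin (q' + 1)
  have hcP : Fintype.card Pos = M * (q' + 1) := by simp [Pos]
  obtain ⟨e⟩ : Nonempty (Fin t ↪ Fin M × Fin ((q' + 1) / 2)) := by
    apply Function.Embedding.nonempty_of_card_le
    simpa using htM
  let sE : Fin t ↪ Pos := ⟨fun a => ((e a).1, ⟨2 * (e a).2.val, by have := (e a).2.2; omega⟩), by
    intro a b h
    apply e.injective
    have h1 := congrArg Prod.fst h
    have h2 := congrArg (fun x : Pos => x.2.val) h
    simp only at h1 h2
    exact Prod.ext h1 (Fin.ext (by omega))⟩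
  let tE : Fin t ↪ Pos := ⟨fun a => ((e a).1, ⟨2 * (e a).2.val + 1, by have := (e a).2.2; omega⟩), by
    intro a b h
    apply e.injective
    have h1 := congrArg Prod.fst h
    have h2 := congrArg (fun x : Pos => x.2.val) h
    simp only at h1 h2
    exact Prod.ext h1 (Fin.ext (by omega))⟩
  have hste : ∀ a b, sE a ≠ tE b := by
    intro a b h
    have h2 := congrArg (fun x : Pos => x.2.val) h
    have h3 : 2 * (e a).2.val = 2 * (e b).2.val + 1 := h2
    omega
  let nxt : Equiv.Perm Pos := Equiv.prodCongr (Equiv.refl _) (finRotate (q' + 1))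
  have hnxt : ∀ p : Pos, nxt p = (p.1, finRotate (q' + 1) p.2) := fun p => rfl
  have hnn : ∀ p, nxt p ≠ p := by
    intro p h
    have h1 := congrArg Prod.snd h
    rw [hnxt] at h1
    simp only at h1
    rcases eq_or_ne p.2 (Fin.last q') with h2 | h2
    · rw [h2, finRotate_last] at h1
      have := congrArg Fin.val h1
      rw [Fin.val_last] at this
      simp at this
      omega
    · have h3 := congrArg Fin.val h1
      rw [coe_finRotate_of_ne_last h2] at h3
      omega
  have hse : ∀ a, nxt (sE a) = tE a := by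
    intro a
    have h2 : (e a).2.val < (q' + 1) / 2 := (e a).2.2
    have hne : (sE a).2 ≠ Fin.last q' := by
      intro h
      have := congrArg Fin.val h
      rw [Fin.val_last] at this
      have h3 : 2 * (e a).2.val = q' := this
      omega
    rw [hnxt]
    refine Prod.ext rfl (Fin.ext ?_)
    rw [coe_finRotate_of_ne_last hne]
    rfl
  let A : Finset Pos := univ.map sE ∪ univ.map tE
  have hdisjA : Disjoint ((univ : Finset (Fin t)).map sE) (univ.map tE) := by
    rw [disjoint_left]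
    intro p hp hp'
    obtain ⟨a, _, rfl⟩ := mem_map.mp hp
    obtain ⟨b, _, hb⟩ := mem_map.mp hp'
    exact hste a b hb.symm
  have hAcard : A.card = 2 * t := by
    rw [card_union_of_disjoint hdisjA, card_map, card_map, card_univ, Fintype.card_fin]
    omega
  -- initial assignment
  let f0 : Pos → G := fun p => if h : ∃ a, sE a = p then (sp h.choose).1 else
    if h : ∃ a, tE a = p then (sp h.choose).2.1 else 1
  have hf0s : ∀ a, f0 (sE a) = (sp a).1 := by
    intro a
    have h : ∃ b, sE b = sE a := ⟨a, rfl⟩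
    simp only [f0, dif_pos h]
    rw [sE.injective h.choose_spec]
  have hf0t : ∀ a, f0 (tE a) = (sp a).2.1 := by
    intro a
    have h0 : ¬ ∃ b, sE b = tE a := fun ⟨b, hb⟩ => hste b a hb
    have h : ∃ b, tE b = tE a := ⟨a, rfl⟩
    simp only [f0, dif_neg h0, dif_pos h]
    rw [tE.injective h.choose_spec]
  have hAmem : ∀ p ∈ A, (∃ a, p = sE a) ∨ ∃ a, p = tE a := by
    intro p hp
    rcases mem_union.mp hp with h | h
    · obtain ⟨a, _, rfl⟩ := mem_map.mp h
      exact Or.inl ⟨a, rfl⟩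
    · obtain ⟨a, _, rfl⟩ := mem_map.mp h
      exact Or.inr ⟨a, rfl⟩
  have hsA : ∀ a, sE a ∈ A := fun a => mem_union_left _ (mem_map.mpr ⟨a, mem_univ _, rfl⟩)
  have htA : ∀ a, tE a ∈ A := fun a => mem_union_right _ (mem_map.mpr ⟨a, mem_univ _, rfl⟩)
  -- greedy
  set c := n / (4 * E) with hc
  have hc1 : n < 4 * E * (c + 1) := by
    rw [hc]
    have := Nat.lt_mul_div_succ n (show 0 < 4 * E by omega)
    exact this
  have hc2 : 2 * t ≤ c := by
    rw [hc, Nat.le_div_iff_mul_le (by omega)]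
    nlinarith
  have hc3 : 4 * E * c ≤ n := by
    rw [hc]
    exact Nat.mul_div_le n (4 * E)
  obtain ⟨f, hf1, hf2, hf3, hf4⟩ := greedy nxt hnn c (3 * E)
    (by rw [hcP]; nlinarith) A S (by rw [hcP, hAcard, hS]; omega) (M * (q' + 1) - 2 * t) A f0 (c + 2)
    (Subset.refl _) (by rw [hcP, hAcard]; omega)
    (by
      intro p hp p' hp' h
      rcases hAmem p hp with ⟨a, rfl⟩ | ⟨a, rfl⟩ <;> rcases hAmem p' hp' with ⟨b, rfl⟩ | ⟨b, rfl⟩
      · rw [hf0s, hf0s] at h
        rw [hsinj h]
      · rw [hf0s, hf0t] at h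
        exact absurd h (hst a b)
      · rw [hf0s, hf0t] at h
        exact absurd h.symm (hst b a)
      · rw [hf0t, hf0t] at h
        rw [htinj h])
    (fun p hp hp' => absurd hp hp')
    (by
      intro p hp
      rcases hAmem p hp with ⟨a, rfl⟩ | ⟨a, rfl⟩
      · rw [hf0s]; exact hsS a
      · rw [hf0t]; exact htS a)
    le_rfl
    (by
      intro g
      have : cnt nxt A f0 g ≤ A.card := card_filter_le _ _
      omega)
  have hfs : ∀ a, f (sE a) = (sp a).1 := fun a => by rw [hf1 _ (hsA a), hf0s]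
  have hft : ∀ a, f (tE a) = (sp a).2.1 := fun a => by rw [hf1 _ (htA a), hf0t]
  -- indices
  let F : Pos → Idx G := fun p => (f p, f (nxt p), ln k q' p.2)
  have hFinj : Function.Injective F := fun p p' h => hf2 (congrArg Prod.fst h)
  let I : Finset (Idx G) := (univ \ univ.map sE).map ⟨F, hFinj⟩
  have hmemI : ∀ i ∈ I, ∃ p, p ∉ (univ : Finset (Fin t)).map sE ∧ i = F p := by
    intro i hi
    obtain ⟨p, hp, rfl⟩ := mem_map.mp hi
    rw [mem_sdiff] at hp
    exact ⟨p, hp.2, rfl⟩
  have hFI : ∀ p, p ∉ (univ : Finset (Fin t)).map sE → F p ∈ I := fun p hp =>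
    mem_map.mpr ⟨p, mem_sdiff.mpr ⟨mem_univ _, hp⟩, rfl⟩
  have hval : (univ : Finset Pos).val.map F = I.val + T.map sidx := by
    have h1 : (univ : Finset Pos) = (univ \ univ.map sE).disjUnion (univ.map sE) sdiff_disjoint := by
      rw [disjUnion_eq_union, sdiff_union_of_subset (subset_univ _)]
    have h2 : (univ : Finset Pos).val = (univ \ univ.map sE).val + (univ.map sE).val := by
      conv_lhs => rw [h1]
      rfl
    rw [h2, Multiset.map_add]
    congr 1
    rw [← hsp, map_val, Multiset.map_map, Multiset.map_map]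
    refine Multiset.map_congr rfl fun a _ => ?_
    simp only [Function.comp_apply, F, sidx]
    rw [hse, hft, hfs]
    have : ln k q' (sE a).2 = 3 := by
      have h3 : (e a).2.val < (q' + 1) / 2 := (e a).2.2
      have h4 : ¬ (sE a).2.val = q' := by
        intro h
        have h5 : 2 * (e a).2.val = q' := h
        omega
      rw [ln, if_neg h4]
    rw [this]
  have himg : (univ \ A).image f = S := by
    apply eq_of_subset_of_card_le
    · intro x hx
      obtain ⟨p, hp, rfl⟩ := mem_image.mp hx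
      exact hf3 p (mem_sdiff.mp hp).2
    · rw [card_image_of_injective _ hf2, card_sdiff_of_subset (subset_univ _), card_univ, hcP,
        hAcard, hS]
  have hval2 : (univ : Finset Pos).val.map f = S.val + T.bind (jl k) := by
    have h1 : (univ : Finset Pos) = (univ \ A).disjUnion A sdiff_disjoint := by
      rw [disjUnion_eq_union, sdiff_union_of_subset (subset_univ _)]
    have h2 : (univ : Finset Pos).val = (univ \ A).val + A.val := by
      conv_lhs => rw [h1]
      rfl
    have h3 : A.val = (univ.map sE).val + (univ.map tE).val := by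
      have : A = (univ.map sE).disjUnion (univ.map tE) hdisjA := by
        rw [disjUnion_eq_union]
      rw [this]
      rfl
    rw [h2, Multiset.map_add, h3, Multiset.map_add, bind_jl k hk, hTs, hTt]
    congr 1
    · rw [← himg, image_val_of_injOn hf2.injOn]
    · congr 1
      · rw [map_val, Multiset.map_map]
        exact Multiset.map_congr rfl fun a _ => hfs a
      · rw [map_val, Multiset.map_map]
        exact Multiset.map_congr rfl fun a _ => hft a
  have hfmem : ∀ p, f p ∈ S ∨ f p ∈ T.bind (jl k) := by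
    intro p
    have : f p ∈ (univ : Finset Pos).val.map f := Multiset.mem_map.mpr ⟨p, mem_univ_val _, rfl⟩
    rw [hval2, Multiset.mem_add] at this
    exact this
  have hSex : ∀ x ∈ S, ∃ p, p ∉ A ∧ f p = x := by
    intro x hx
    rw [← himg, mem_image] at hx
    obtain ⟨p, hp, rfl⟩ := hx
    exact ⟨p, (mem_sdiff.mp hp).2, rfl⟩
  refine ⟨List.ofFn fun j : Fin M => List.ofFn fun i : Fin (q' + 1) => (f (j, i), ln k q' i), I,
    ?_, ?_, ?_, ?_, ?_, ?_, ?_, ?_, ?_, ?_, ?_, Or.inr ?_⟩
  · intro c' hc'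
    rw [List.mem_ofFn] at hc'
    obtain ⟨j, rfl⟩ := hc'
    refine ⟨by rw [snd_ofFn (h := fun i => f (j, i)), sum_ln]; omega, ?_⟩
    intro x hx
    rw [List.mem_ofFn] at hx
    obtain ⟨i, rfl⟩ := hx
    simp only [ln]
    split_ifs <;> omega
  · rw [List.length_ofFn]
    exact hMk
  · rw [bind_tidx k hk, add_zero, ← hval, List.map_ofFn, List.ofFn_eq_map]
    rw [← prod_map_val F]
    congr 1
    refine List.map_congr_left fun j _ => ?_
    rw [Function.comp_apply, cidx_ofFn q' (fun i => f (j, i)) (ln k q')]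
    rfl
  · rw [← hval2, List.map_ofFn, List.ofFn_eq_map]
    rw [← prod_map_val f]
    congr 1
    refine List.map_congr_left fun j _ => ?_
    rw [Function.comp_apply, fst_ofFn q' (fun i => f (j, i)) (ln k q')]
  · intro i hi
    obtain ⟨p, _, rfl⟩ := hmemI i hi
    simp only [F, ln]
    split_ifs <;> omega
  · intro i hi j hj h
    obtain ⟨p, _, rfl⟩ := hmemI i hi
    obtain ⟨p', _, rfl⟩ := hmemI j hj
    rw [hf2 h]
  · intro i hi j hj h
    obtain ⟨p, _, rfl⟩ := hmemI i hi
    obtain ⟨p', _, rfl⟩ := hmemI j hj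
    rw [nxt.injective (hf2 h)]
  · intro x hx
    obtain ⟨p, hp, rfl⟩ := hSex x hx
    exact ⟨F p, hFI p fun h => hp (mem_union_left _ h), rfl⟩
  · intro i hi
    obtain ⟨p, _, rfl⟩ := hmemI i hi
    exact hfmem p
  · intro x hx
    obtain ⟨p, hp, rfl⟩ := hSex x hx
    refine ⟨F (nxt.symm p), hFI _ ?_, ?_⟩
    · intro h
      obtain ⟨a, _, ha⟩ := mem_map.mp h
      apply hp
      have : p = tE a := by rw [← hse a, ha]; simp
      rw [this]
      exact htA a
    · show f (nxt (nxt.symm p)) = f p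
      rw [Equiv.apply_symm_apply]
  · intro i hi
    obtain ⟨p, _, rfl⟩ := hmemI i hi
    exact hfmem (nxt p)
  · intro g
    have h1 : (I.filter fun i => i.1⁻¹ * i.2.1 = g).card ≤ cnt nxt univ f g := by
      have : (I.filter fun i => i.1⁻¹ * i.2.1 = g) ⊆
          (univ.filter fun p => nxt p ∈ univ ∧ (f p)⁻¹ * f (nxt p) = g).image F := by
        intro i hi
        rw [mem_filter] at hi
        obtain ⟨p, _, rfl⟩ := hmemI i hi.1
        exact mem_image.mpr ⟨p, mem_filter.mpr ⟨mem_univ _, mem_univ _, hi.2⟩, rfl⟩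
      exact (card_le_card this).trans card_image_le
    have h2 := hf4 g
    have h3 : min (M * (q' + 1) - 2 * t) (3 * E) ≤ 3 * E := min_le_right _ _
    have h4 : (I.filter fun i => i.1⁻¹ * i.2.1 = g).card ≤ c + 2 + 6 * E := by omega
    calc E * (I.filter fun i => i.1⁻¹ * i.2.1 = g).card ≤ E * (c + 2 + 6 * E) :=
          Nat.mul_le_mul_left _ h4
      _ ≤ n := by nlinarith

theorem stmt_PLACE : Stmt_PLACE := by
  intro E
  refine ⟨100 + 8 * (E + 1), 100 + 20 * (E + 1) * (E + 1), ?_⟩
  intro G _ _ _ k hN hk3 hdvd T hnd h3 hT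
  by_cases hk : k ≤ 5
  · have hk' : k = 3 ∨ k = 4 ∨ k = 5 := by omega
    exact place1 E k hk' hdvd T hnd h3 (by nlinarith) (by nlinarith)
  · obtain ⟨m, h1, h2, h3'⟩ := place2 (E + 1) k (by omega) (by omega) hdvd T hnd hT hN
    refine ⟨m, h1, h2, fun S hS hd => ?_⟩
    obtain ⟨L, I, a1, a2, a3, a4, a5, a6, a7, a8, a9, a10, a11, a12⟩ := h3' S hS hd
    refine ⟨L, I, a1, a2, a3, a4, a5, a6, a7, a8, a9, a10, a11, ?_⟩
    rcases a12 with h | h
    · exact Or.inl h
    · right
      intro g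
      have := h g
      nlinarith

end Pool.OM.helper48
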