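import Mathlib

/-! MP_8d2cba_co, block PLACE: greedy filling of slots. -/

set_option autoImplicit false

namespace Pool.OM.helper48

open Finset

section greedy

variable {G Pos : Type} [Group G] [Fintype G] [DecidableEq G] [Fintype Pos] [DecidableEq Pos]

/-- number of arcs inside `D` with difference `g` -/
def cnt (nxt : Equiv.Perm Pos) (D : Finset Pos) (f : Pos → G) (g : G) : ℕ :=
  (D.filter fun p => nxt p ∈ D ∧ (f p)⁻¹ * f (nxt p) = g).card

lemma sum_cnt (nxt : Equiv.Perm Pos) (D : Finset Pos) (f : Pos → G) :
    ∑ g, cnt nxt D f g ≤ Fintype.card Pos := by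
  have h : ∑ g, cnt nxt D f g ≤ ∑ g, (univ.filter fun p : Pos => (f p)⁻¹ * f (nxt p) = g).card := by
    refine sum_le_sum fun g _ => card_le_card ?_
    intro p hp
    rw [mem_filter] at hp ⊢
    exact ⟨mem_univ _, hp.2.2⟩
  refine h.trans ?_
  rw [← Finset.card_eq_sum_card_fiberwise (fun _ _ => mem_univ _)]
  exact le_of_eq card_univ

lemma cnt_insert (nxt : Equiv.Perm Pos) (hn : ∀ p, nxt p ≠ p) (D : Finset Pos) (f : Pos → G)
    (p : Pos) (hp : p ∉ D) (x : G) (g : G) :
    cnt nxt (insert p D) (Function.update f p x) g ≤ cnt nxt D f g
      + ((if x⁻¹ * f (nxt p) = g then 1 else 0) + (if (f (nxt.symm p))⁻¹ * x = g then 1 else 0)) := by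
  have hsub : ((insert p D).filter fun p' => nxt p' ∈ insert p D ∧
      (Function.update f p x p')⁻¹ * Function.update f p x (nxt p') = g) ⊆
      (D.filter fun p' => nxt p' ∈ D ∧ (f p')⁻¹ * f (nxt p') = g) ∪
      ((if x⁻¹ * f (nxt p) = g then {p} else ∅) ∪
        (if (f (nxt.symm p))⁻¹ * x = g then {nxt.symm p} else ∅)) := by
    intro p' hp'
    rw [mem_filter] at hp'
    obtain ⟨h1, h2, h3⟩ := hp'
    rw [mem_union, mem_union]
    by_cases e1 : p' = p
    · subst e1
      right; left
      rw [Function.update_self, Function.update_of_ne (hn p')] at h3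
      rw [if_pos h3]
      exact mem_singleton_self _
    · by_cases e2 : nxt p' = p
      · right; right
        rw [e2, Function.update_self, Function.update_of_ne e1] at h3
        have e3 : nxt.symm p = p' := by rw [← e2]; simp
        rw [e3, if_pos h3]
        exact mem_singleton_self _
      · left
        rw [Function.update_of_ne e2, Function.update_of_ne e1] at h3
        rw [mem_filter]
        rw [mem_insert] at h1 h2
        exact ⟨h1.resolve_left e1, h2.resolve_left e2, h3⟩
  refine (card_le_card hsub).trans ((card_union_le _ _).trans ?_)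
  refine Nat.add_le_add le_rfl ((card_union_le _ _).trans ?_)
  refine Nat.add_le_add ?_ ?_
  · split_ifs <;> simp
  · split_ifs <;> simp

lemma greedy (nxt : Equiv.Perm Pos) (hn : ∀ p, nxt p ≠ p) (c r0 : ℕ)
    (hr : 2 * Fintype.card Pos ≤ r0 * (c + 1)) (A : Finset Pos) (S : Finset G)
    (hcard : Fintype.card Pos = A.card + S.card) :
    ∀ (r : ℕ) (D : Finset Pos) (f : Pos → G) (b : ℕ), A ⊆ D → D.card + r = Fintype.card Pos →
      Set.InjOn f D → (∀ p ∈ D, p ∉ A → f p ∈ S) → (∀ p ∈ A, f p ∉ S) → c + 2 ≤ b →
      (∀ g, cnt nxt D f g ≤ b) →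
      ∃ f' : Pos → G, (∀ p ∈ D, f' p = f p) ∧ Function.Injective f' ∧ (∀ p, p ∉ A → f' p ∈ S) ∧
        ∀ g, cnt nxt univ f' g ≤ b + 2 * min r r0 := by
  intro r
  induction r with
  | zero =>
    intro D f b hAD hD hinj hS hA hb hc
    have hDu : D = univ := by
      apply eq_univ_of_card
      simpa using hD
    subst hDu
    refine ⟨f, fun _ _ => rfl, ?_, fun p hp => hS p (mem_univ _) hp, fun g => by simpa using hc g⟩
    intro a b' h
    exact hinj (by simp) (by simp) h
  | succ r ih =>
    intro D f b hAD hD hinj hS hA hb hc
    have hne : ∃ p, p ∉ D := by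
      by_contra hcon
      push Not at hcon
      have : D = univ := eq_univ_iff_forall.mpr hcon
      rw [this, card_univ] at hD
      omega
    obtain ⟨p, hp⟩ := hne
    have hpA : p ∉ A := fun h => hp (hAD h)
    -- available elements
    set U : Finset G := S.filter fun x => x ∉ D.image f with hU
    have hUcard : r + 1 ≤ U.card := by
      have h1 : (S.filter fun x => x ∈ D.image f) ⊆ (D \ A).image f := by
        intro x hx
        rw [mem_filter, mem_image] at hx
        obtain ⟨hxS, y, hy, rfl⟩ := hx
        rw [mem_image]
        refine ⟨y, ?_, rfl⟩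
        rw [mem_sdiff]
        exact ⟨hy, fun hyA => hA y hyA hxS⟩
      have h2 : (S.filter fun x => x ∈ D.image f).card ≤ D.card - A.card := by
        refine (card_le_card h1).trans (card_image_le.trans ?_)
        rw [card_sdiff_of_subset hAD]
      have h3 : (S.filter fun x => x ∈ D.image f).card + U.card = S.card := by
        rw [hU]
        exact card_filter_add_card_filter_not _
      have h4 := card_le_card hAD
      omega
    -- choice of x
    have hx : ∃ x ∈ U, r + 1 ≤ r0 ∨ (cnt nxt D f (x⁻¹ * f (nxt p)) ≤ c ∧
        cnt nxt D f ((f (nxt.symm p))⁻¹ * x) ≤ c) := by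
      by_cases hr0 : r + 1 ≤ r0
      · obtain ⟨x, hx⟩ : U.Nonempty := by
          rw [← card_pos]; omega
        exact ⟨x, hx, Or.inl hr0⟩
      · set Sat : Finset G := univ.filter fun g => c < cnt nxt D f g with hSat
        have hs1 : Sat.card * (c + 1) ≤ Fintype.card Pos := by
          calc Sat.card * (c + 1) = ∑ g ∈ Sat, (c + 1) := by simp
            _ ≤ ∑ g ∈ Sat, cnt nxt D f g := sum_le_sum fun g hg => by
                rw [hSat, mem_filter] at hg
                exact hg.2
            _ ≤ ∑ g, cnt nxt D f g :=
                sum_le_sum_of_subset_of_nonneg (subset_univ _) (fun _ _ _ => Nat.zero_le _)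
            _ ≤ Fintype.card Pos := sum_cnt nxt D f
        have hs2 : 2 * Sat.card ≤ r0 := by
          have : (2 * Sat.card) * (c + 1) ≤ r0 * (c + 1) := by nlinarith
          exact Nat.le_of_mul_le_mul_right this (Nat.succ_pos c)
        have hex : ∃ x ∈ U, x ∉ Sat.image (fun g => f (nxt p) * g⁻¹) ∪
            Sat.image (fun g => f (nxt.symm p) * g) := by
          by_contra hcon
          push Not at hcon
          have h1 : U.card ≤ Sat.card + Sat.card :=
            (card_le_card (fun x hx => hcon x hx)).trans
              ((card_union_le _ _).trans (Nat.add_le_add card_image_le card_image_le))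
          omega
        obtain ⟨x, hxU, hx2⟩ := hex
        refine ⟨x, hxU, Or.inr ⟨?_, ?_⟩⟩
        · by_contra hcon
          apply hx2
          rw [mem_union]
          left
          rw [mem_image]
          refine ⟨x⁻¹ * f (nxt p), ?_, by group⟩
          rw [hSat, mem_filter]
          exact ⟨mem_univ _, not_le.mp hcon⟩
        · by_contra hcon
          apply hx2
          rw [mem_union]
          right
          rw [mem_image]
          refine ⟨(f (nxt.symm p))⁻¹ * x, ?_, by group⟩
          rw [hSat, mem_filter]
          exact ⟨mem_univ _, not_le.mp hcon⟩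
    obtain ⟨x, hxU, hxgood⟩ := hx
    rw [hU, mem_filter] at hxU
    obtain ⟨hxS, hxD⟩ := hxU
    have hcntx : ∀ g, cnt nxt (insert p D) (Function.update f p x) g ≤
        if r + 1 ≤ r0 then b + 2 else b := by
      intro g
      have h1 := cnt_insert nxt hn D f p hp x g
      have h2 := hc g
      split_ifs with h0
      · split_ifs at h1 <;> omega
      · have h3 := hxgood.resolve_left h0
        split_ifs at h1 with e1 e2 e2
        · rw [e1] at h3; omega
        · rw [e1] at h3; omega
        · rw [e2] at h3; omega
        · omega
    have hb' : c + 2 ≤ if r + 1 ≤ r0 then b + 2 else b := by split_ifs <;> omega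
    obtain ⟨f', hf1, hf2, hf3, hf4⟩ := ih (insert p D) (Function.update f p x)
      (if r + 1 ≤ r0 then b + 2 else b) (hAD.trans (subset_insert _ _))
      (by rw [card_insert_of_notMem hp]; omega)
      (by
        intro a ha a' ha' h
        rw [coe_insert, Set.mem_insert_iff, mem_coe] at ha ha'
        by_cases ea : a = p
        · by_cases ea' : a' = p
          · rw [ea, ea']
          · exfalso
            rw [ea, Function.update_self, Function.update_of_ne ea'] at h
            exact hxD (mem_image.mpr ⟨a', ha'.resolve_left ea', h.symm⟩)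
        · by_cases ea' : a' = p
          · exfalso
            rw [ea', Function.update_self, Function.update_of_ne ea] at h
            exact hxD (mem_image.mpr ⟨a, ha.resolve_left ea, h⟩)
          · rw [Function.update_of_ne ea, Function.update_of_ne ea'] at h
            exact hinj (ha.resolve_left ea) (ha'.resolve_left ea') h)
      (by
        intro p' hp' hp'A
        by_cases e : p' = p
        · rw [e, Function.update_self]; exact hxS
        · rw [Function.update_of_ne e]
          rw [mem_insert] at hp'
          exact hS p' (hp'.resolve_left e) hp'A)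
      (by
        intro p' hp'
        have e : p' ≠ p := fun e => hpA (e ▸ hp')
        rw [Function.update_of_ne e]
        exact hA p' hp')
      hb' hcntx
    refine ⟨f', ?_, hf2, hf3, ?_⟩
    · intro p' hp'
      have e : p' ≠ p := fun e => hp (e ▸ hp')
      rw [hf1 p' (mem_insert_of_mem hp'), Function.update_of_ne e]
    · intro g
      have h1 := hf4 g
      split_ifs at h1 with h0
      · have h2 : min (r + 1) r0 = r + 1 := min_eq_left h0
        have h3 : min r r0 = r := min_eq_left (by omega)
        rw [h2]; rw [h3] at h1
        omega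
      · have h2 : min (r + 1) r0 = r0 := min_eq_right (by omega)
        have h3 : min r r0 ≤ r0 := min_le_right _ _
        rw [h2]
        omega

end greedy

end Pool.OM.helper48
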