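import Pool.Agent.Work.MP_8d2cba_co_h18.Interface
import Pool.Agent.Work.MP_8d2cba_co_helper48.Greedy

/-! MP_8d2cba_co, block PLACE: indices of a cycle given by a function on `Fin q`. -/

set_option autoImplicit false

namespace Pool.OM.helper48

open Finset

variable {G : Type}

lemma cidxAux_ofFn (s₀ : G) : ∀ (n : ℕ) (h : Fin (n + 1) → G) (len : Fin (n + 1) → ℕ),
    cidxAux s₀ (List.ofFn fun i => (h i, len i)) =
      ((List.ofFn fun i : Fin (n + 1) =>
        (h i, (if hi : i.val + 1 < n + 1 then h ⟨i.val + 1, hi⟩ else s₀), len i) :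
          List (Idx G)) : Multiset (Idx G)) := by
  intro n
  induction n with
  | zero =>
    intro h len
    rw [List.ofFn_succ, List.ofFn_succ]
    simp [cidxAux]
  | succ n ih =>
    intro h len
    rw [List.ofFn_succ, List.ofFn_succ]
    have e1 : cidxAux s₀ ((h 0, len 0) :: (h (Fin.succ 0), len (Fin.succ 0)) ::
        List.ofFn (fun i : Fin n => (h i.succ.succ, len i.succ.succ))) =
        (h 0, h (Fin.succ 0), len 0) ::ₘ cidxAux s₀ ((h (Fin.succ 0), len (Fin.succ 0)) ::
          List.ofFn (fun i : Fin n => (h i.succ.succ, len i.succ.succ))) := rfl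
    rw [e1]
    have e2 : ((h (Fin.succ 0), len (Fin.succ 0)) ::
          List.ofFn (fun i : Fin n => (h i.succ.succ, len i.succ.succ))) =
        List.ofFn (fun i : Fin (n + 1) => (h i.succ, len i.succ)) := by
      rw [List.ofFn_succ]
    rw [e2, ih (fun i => h i.succ) (fun i => len i.succ)]
    rw [List.ofFn_succ (f := fun i : Fin (n + 1 + 1) =>
      ((h i, (if hi : i.val + 1 < n + 1 + 1 then h ⟨i.val + 1, hi⟩ else s₀), len i) : Idx G))]
    rw [← Multiset.cons_coe]
    congr 1
    congr 1
    congr 1
    funext i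
    by_cases hi : i.val + 1 < n + 1
    · have hi' : i.succ.val + 1 < n + 1 + 1 := by simp; omega
      rw [dif_pos hi, dif_pos hi']
      congr 1
    · have hi' : ¬ (i.succ.val + 1 < n + 1 + 1) := by simp; omega
      rw [dif_neg hi, dif_neg hi']

lemma cidx_ofFn (n : ℕ) (h : Fin (n + 1) → G) (len : Fin (n + 1) → ℕ) :
    cidx (List.ofFn fun i => (h i, len i)) =
      (univ : Finset (Fin (n + 1))).val.map fun i => (h i, h (finRotate (n + 1) i), len i) := by
  have e0 : cidx (List.ofFn fun i : Fin (n + 1) => (h i, len i)) =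
      cidxAux (h 0) (List.ofFn fun i => (h i, len i)) := by
    rw [List.ofFn_succ]
    rfl
  rw [e0, cidxAux_ofFn, Fin.univ_val_map]
  congr 1
  congr 1
  funext i
  by_cases hi : i.val + 1 < n + 1
  · rw [dif_pos hi]
    have : finRotate (n + 1) i = ⟨i.val + 1, hi⟩ := by
      apply Fin.ext
      rw [finRotate_succ_apply]
      simp only
      rw [Fin.val_add_one_of_lt]
      rw [Fin.lt_def, Fin.val_last]
      omega
    rw [this]
  · rw [dif_neg hi]
    have hi' : i = Fin.last n := by
      apply Fin.ext
      rw [Fin.val_last]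
      omega
    rw [hi', finRotate_last]

lemma fst_ofFn (n : ℕ) (h : Fin (n + 1) → G) (len : Fin (n + 1) → ℕ) :
    (((List.ofFn fun i => (h i, len i)).map Prod.fst : List G) : Multiset G) =
      (univ : Finset (Fin (n + 1))).val.map h := by
  rw [Fin.univ_val_map, List.map_ofFn]
  rfl

lemma snd_ofFn (n : ℕ) (h : Fin (n + 1) → G) (len : Fin (n + 1) → ℕ) :
    ((List.ofFn fun i => (h i, len i)).map Prod.snd).sum = ∑ i, len i := by
  rw [List.map_ofFn, List.sum_ofFn]
  rfl

/-- product version -/
lemma prod_map_val {α β : Type} {M : ℕ} [Fintype α] (F : Fin M × α → β) :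
    ((List.finRange M).map fun j => (univ : Finset α).val.map fun i => F (j, i)).sum =
      (univ : Finset (Fin M × α)).val.map F := by
  classical
  have h1 : (univ : Finset (Fin M × α)).val = ((univ : Finset (Fin M)).val.bind fun j =>
      (univ : Finset α).val.map fun i => (j, i)) := rfl
  rw [h1, Multiset.map_bind]
  simp only [Multiset.map_map, Function.comp_def]
  rw [Multiset.bind]
  rw [Multiset.join, Fin.univ_val_map]
  rw [Multiset.sum_coe, List.ofFn_eq_map]

end Pool.OM.helper48
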