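import Pool.Agent.Work.MP_8d2cba_co_helper48.Cyc

/-! MP_8d2cba_co, block PLACE: the case `k ≤ 5`. -/

set_option autoImplicit false

namespace Pool.OM.helper48

open Finset

variable {G : Type}

/-- the cycle of a special index, `k ≤ 5` -/
def spc (k : ℕ) (i : SI G) : List (G × ℕ) :=
  if k = 3 then [(i.1, 3)] else if k = 4 then [(i.1, 3), (i.2.1, 1)] else
    [(i.1, 3), (i.2.1, 1), (i.2.2, 1)]

lemma spc_cidx (k : ℕ) (hk : k = 3 ∨ k = 4 ∨ k = 5) (i : SI G) (h3 : k = 3 → i.2.1 = i.1) :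
    cidx (spc k i) = {sidx i} + tidx k i := by
  rcases hk with rfl | rfl | rfl
  · have h := h3 rfl
    simp [spc, tidx, cidx, cidxAux, sidx, h]
  · simp [spc, tidx, cidx, cidxAux, sidx]
  · simp only [spc, tidx, cidx, cidxAux, sidx]
    rfl

lemma spc_fst (k : ℕ) (hk : k = 3 ∨ k = 4 ∨ k = 5) (i : SI G) :
    (((spc k i).map Prod.fst : List G) : Multiset G) = jl k i := by
  rcases hk with rfl | rfl | rfl
  · simp [spc, jl]
  · simp only [spc, jl]
    rfl
  · simp only [spc, jl]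
    rfl

lemma spc_snd (k : ℕ) (hk : k = 3 ∨ k = 4 ∨ k = 5) (i : SI G) :
    ((spc k i).map Prod.snd).sum = k ∧ ∀ x ∈ spc k i, 1 ≤ x.2 := by
  rcases hk with rfl | rfl | rfl <;> simp [spc]

lemma toList_sum {α β : Type} (T : Multiset α) (F : α → Multiset β) :
    (T.toList.map F).sum = (T.map F).sum := by
  conv_rhs => rw [← Multiset.coe_toList T, Multiset.map_coe, Multiset.sum_coe]

lemma place1 [Group G] [Fintype G] [DecidableEq G] (E k : ℕ) (hk : k = 3 ∨ k = 4 ∨ k = 5)
    (hdvd : k ∣ Fintype.card G - 1) (T : Multiset (SI G)) (hnd : (T.bind (jl k)).Nodup)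
    (h3 : k = 3 → ∀ i ∈ T, i.2.1 = i.1) (hT : 100 * Multiset.card T ≤ Fintype.card G)
    (hN : 100 ≤ Fintype.card G) :
  ∃ m : ℕ, Fintype.card G ≤ 6 * m ∧ 3 * m ≤ Fintype.card G ∧
    ∀ S : Finset G, S.card = m → (∀ x ∈ T.bind (jl k), x ∉ S) →
    ∃ (L : List (List (G × ℕ))) (I : Finset (Idx G)),
      (∀ c ∈ L, (c.map Prod.snd).sum = k ∧ ∀ x ∈ c, 1 ≤ x.2) ∧
      L.length * k + 1 = Fintype.card G ∧
      (L.map cidx).sum = I.val + T.map sidx + T.bind (tidx k) ∧
      (L.map fun c => ((c.map Prod.fst : List G) : Multiset G)).sum = S.val + T.bind (jl k) ∧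
      (∀ i ∈ I, i.2.2 = 3 ∨ i.2.2 = 4 ∨ i.2.2 = 5) ∧
      Set.InjOn (fun i : Idx G => i.1) (I : Set (Idx G)) ∧
      Set.InjOn (fun i : Idx G => i.2.1) (I : Set (Idx G)) ∧
      (∀ x ∈ S, ∃ i ∈ I, i.1 = x) ∧ (∀ i ∈ I, i.1 ∈ S ∨ i.1 ∈ T.bind (jl k)) ∧
      (∀ x ∈ S, ∃ i ∈ I, i.2.1 = x) ∧ (∀ i ∈ I, i.2.1 ∈ S ∨ i.2.1 ∈ T.bind (jl k)) ∧
      ((∀ i ∈ I, i.2.1 = i.1) ∨
        ∀ g : G, E * (I.filter fun i => i.1⁻¹ * i.2.1 = g).card ≤ Fintype.card G) := by
  obtain ⟨M, hM⟩ := hdvd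
  set n := Fintype.card G with hn
  have hk5 : 3 ≤ k ∧ k ≤ 5 := by rcases hk with rfl | rfl | rfl <;> omega
  have hMT : Multiset.card T ≤ M := by
    have : 100 * Multiset.card T ≤ 1 + 5 * M := by
      have : k * M ≤ 5 * M := Nat.mul_le_mul_right _ hk5.2
      omega
    have h100 : k * M ≤ 5 * M := Nat.mul_le_mul_right _ hk5.2
    omega
  refine ⟨M - Multiset.card T, ?_, ?_, ?_⟩
  · rcases hk with rfl | rfl | rfl <;> omega
  · rcases hk with rfl | rfl | rfl <;> omega
  intro S hS hdisj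
  let I : Finset (Idx G) := S.map ⟨fun s => (s, s, k), fun a b h => congrArg Prod.fst h⟩
  have hI : I.val = S.val.map fun s => ((s, s, k) : Idx G) := rfl
  have hmemI : ∀ i ∈ I, ∃ s ∈ S, i = (s, s, k) := by
    intro i hi
    obtain ⟨s, hs, rfl⟩ := Finset.mem_map.mp hi
    exact ⟨s, hs, rfl⟩
  have hInI : ∀ s ∈ S, ((s, s, k) : Idx G) ∈ I := fun s hs => Finset.mem_map.mpr ⟨s, hs, rfl⟩
  refine ⟨S.toList.map (fun s => [(s, k)]) ++ T.toList.map (spc k), I, ?_, ?_, ?_, ?_, ?_, ?_, ?_,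
    ?_, ?_, ?_, ?_, Or.inl ?_⟩
  · intro c hc
    rw [List.mem_append, List.mem_map, List.mem_map] at hc
    rcases hc with ⟨s, _, rfl⟩ | ⟨i, _, rfl⟩
    · simp; omega
    · exact spc_snd k hk i
  · rw [List.length_append, List.length_map, List.length_map, Finset.length_toList,
      Multiset.length_toList, hS]
    have : M - Multiset.card T + Multiset.card T = M := Nat.sub_add_cancel hMT
    rw [this, mul_comm]
    omega
  · rw [List.map_append, List.sum_append, List.map_map, List.map_map, toList_sum]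
    have e1 : (S.toList.map (cidx ∘ fun s => [(s, k)])).sum = I.val := by
      have : (cidx ∘ fun s : G => [(s, k)]) = fun s => ({((s, s, k) : Idx G)} : Multiset (Idx G)) := by
        funext s
        simp [cidx, cidxAux]
      rw [hI, this, show S.toList = S.val.toList from rfl, toList_sum]
      rw [← Multiset.sum_map_singleton (S.val.map fun s => ((s, s, k) : Idx G)), Multiset.map_map]
      rfl
    have e2 : (T.map (cidx ∘ spc k)).sum = T.map sidx + T.bind (tidx k) := by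
      have : T.map (cidx ∘ spc k) = T.map fun i => ({sidx i} + tidx k i : Multiset (Idx G)) :=
        Multiset.map_congr rfl fun i hi => spc_cidx k hk i (fun h => h3 h i hi)
      rw [this, Multiset.sum_map_add]
      congr 1
      rw [← Multiset.sum_map_singleton (T.map sidx), Multiset.map_map]
      rfl
    rw [e1, e2, add_assoc]
  · rw [List.map_append, List.sum_append, List.map_map, List.map_map, toList_sum]
    have e1 : (S.toList.map ((fun c : List (G × ℕ) => ((c.map Prod.fst : List G) : Multiset G)) ∘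
        fun s => [(s, k)])).sum = S.val := by
      rw [show S.toList = S.val.toList from rfl, toList_sum]
      conv_rhs => rw [← Multiset.sum_map_singleton S.val]
      rfl
    have e2 : (T.map ((fun c : List (G × ℕ) => ((c.map Prod.fst : List G) : Multiset G)) ∘
        spc k)).sum = T.bind (jl k) := by
      have : T.map ((fun c : List (G × ℕ) => ((c.map Prod.fst : List G) : Multiset G)) ∘ spc k) =
          T.map (jl k) := Multiset.map_congr rfl fun i _ => spc_fst k hk i
      rw [this]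
      rfl
    rw [e1, e2]
  · intro i hi
    obtain ⟨s, _, rfl⟩ := hmemI i hi
    exact hk
  · intro i hi j hj h
    obtain ⟨s, _, rfl⟩ := hmemI i hi
    obtain ⟨s', _, rfl⟩ := hmemI j hj
    simp only at h
    rw [h]
  · intro i hi j hj h
    obtain ⟨s, _, rfl⟩ := hmemI i hi
    obtain ⟨s', _, rfl⟩ := hmemI j hj
    simp only at h
    rw [h]
  · intro x hx
    exact ⟨_, hInI x hx, rfl⟩
  · intro i hi
    obtain ⟨s, hs, rfl⟩ := hmemI i hi
    exact Or.inl hs
  · intro x hx
    exact ⟨_, hInI x hx, rfl⟩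
  · intro i hi
    obtain ⟨s, hs, rfl⟩ := hmemI i hi
    exact Or.inl hs
  · intro i hi
    obtain ⟨s, hs, rfl⟩ := hmemI i hi
    rfl

end Pool.OM.helper48
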